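import Mathlib.MeasureTheory.Function.L2Space
import Mathlib.MeasureTheory.Measure.Lebesgue.Basic
import Mathlib.Analysis.Normed.Operator.BoundedLinearMaps
import Mathlib.Analysis.Complex.Basic

/-!
Dyadic intervals, Haar functions and the tensor product Haar shift, as in the problem file.
-/

namespace Pool.Agent.Work.MP_8c5903_an

open MeasureTheory

/-- The dyadic interval `[k 2^j, (k+1) 2^j)`. Its left and right halves are
`dyadic (j-1) (2k)` and `dyadic (j-1) (2k+1)`. -/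
def dyadic (j k : ℤ) : Set ℝ := Set.Ico (k * 2 ^ j) ((k + 1) * 2 ^ j)

/-- The `L²`-normalised Haar function `h_I = |I|^(-1/2) (1_{I₊} - 1_{I₋})` of
`I = dyadic j k`. -/
noncomputable def haar (j k : ℤ) (x : ℝ) : ℝ :=
  (√(2 ^ j))⁻¹ * ((dyadic (j - 1) (2 * k + 1)).indicator 1 x - (dyadic (j - 1) (2 * k)).indicator 1 x)

/-- `T h_J` for `J = dyadic j k`: if `k` is odd then `J = I₊` is a right half and
`T h_{I₊} = h_{I₋}`; if `k` is even then `J = I₋` is a left half and `T h_{I₋} = -h_{I₊}`. -/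
noncomputable def shiftHaar (j k : ℤ) (x : ℝ) : ℝ :=
  if Odd k then haar j (k - 1) x else -haar j (k + 1) x

/-- Complex `L²(ℝ²)` with Lebesgue measure. -/
abbrev L2 : Type := Lp ℂ 2 (volume : Measure (ℝ × ℝ))

/-- `S` is a bounded linear operator on `L²(ℝ²)` acting on the product Haar basis as `T ⊗ T`:
`S (h_{J₁} ⊗ h_{J₂}) = T h_{J₁} ⊗ T h_{J₂}`. -/
def IsTensorShift (S : L2 → L2) : Prop :=
  IsBoundedLinearMap ℂ S ∧ ∀ (j₁ k₁ j₂ k₂ : ℤ) (f : L2),
    (f =ᵐ[volume] fun p => ((haar j₁ k₁ p.1 * haar j₂ k₂ p.2 : ℝ) : ℂ)) →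
      (S f =ᵐ[volume] fun p => ((shiftHaar j₁ k₁ p.1 * shiftHaar j₂ k₂ p.2 : ℝ) : ℂ))

end Pool.Agent.Work.MP_8c5903_an
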