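import Pool.Agent.Work.MP_8c5903_an.Defs
import Mathlib.MeasureTheory.Integral.Prod
import Mathlib.Analysis.InnerProductSpace.Adjoint
import Mathlib.Analysis.InnerProductSpace.l2Space

/-!
Orthonormality of the Haar system and existence of the tensor shift.
-/

namespace Pool.Agent.Work.MP_8c5903_an

open MeasureTheory Set

theorem mem_dyadic {j k : ℤ} {x : ℝ} : x ∈ dyadic j k ↔ ⌊x / 2 ^ j⌋ = k := by
  have h : (0 : ℝ) < 2 ^ j := by positivity
  rw [dyadic, mem_Ico, Int.floor_eq_iff, le_div_iff₀ h, div_lt_iff₀ h]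

theorem floor_succ (j : ℤ) (x : ℝ) : ⌊x / 2 ^ (j + 1)⌋ = ⌊x / 2 ^ j⌋ / 2 := by
  rw [zpow_add_one₀ two_ne_zero, ← div_div]
  exact_mod_cast Int.floor_div_natCast (x / 2 ^ j) 2

theorem floor_eq_of_le {j j' : ℤ} (h : j ≤ j') {x y : ℝ} (hxy : ⌊x / 2 ^ j⌋ = ⌊y / 2 ^ j⌋) :
    ⌊x / 2 ^ j'⌋ = ⌊y / 2 ^ j'⌋ := by
  induction j', h using Int.leInduction with
  | base => exact hxy
  | succ n _ ih => rw [floor_succ, floor_succ, ih]

theorem measurableSet_dyadic (j k : ℤ) : MeasurableSet (dyadic j k) := measurableSet_Ico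

theorem volume_dyadic (j k : ℤ) : volume (dyadic j k) = ENNReal.ofReal (2 ^ j) := by
  rw [dyadic, Real.volume_Ico]
  congr 1
  ring

/-- indicator function of a dyadic interval -/
noncomputable def ch (j k : ℤ) (x : ℝ) : ℝ := (dyadic j k).indicator 1 x

theorem ch_eq (j k : ℤ) (x : ℝ) : ch j k x = if ⌊x / 2 ^ j⌋ = k then 1 else 0 := by
  simp only [ch, indicator, mem_dyadic, Pi.one_apply]

theorem ch_split (j k : ℤ) (x : ℝ) : ch (j + 1) k x = ch j (2 * k) x + ch j (2 * k + 1) x := by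
  simp only [ch_eq, floor_succ]
  split_ifs <;> first | omega | simp

theorem haar_eq (j k : ℤ) (x : ℝ) :
    haar j k x = (√(2 ^ j))⁻¹ * (ch (j - 1) (2 * k + 1) x - ch (j - 1) (2 * k) x) := rfl

theorem integrable_ch (j k : ℤ) : Integrable (ch j k) :=
  (integrable_indicator_iff (measurableSet_dyadic j k)).2
    (integrableOn_const (by rw [volume_dyadic]; exact ENNReal.ofReal_ne_top))

theorem integral_ch (j k : ℤ) : ∫ x, ch j k x = 2 ^ j := by
  unfold ch
  rw [integral_indicator_one (measurableSet_dyadic j k), Measure.real, volume_dyadic,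
    ENNReal.toReal_ofReal (by positivity)]

theorem integral_haar (j k : ℤ) : ∫ x, haar j k x = 0 := by
  simp only [haar_eq]
  rw [integral_const_mul, integral_sub (integrable_ch _ _) (integrable_ch _ _), integral_ch,
    integral_ch, sub_self, mul_zero]

theorem haar_eq_zero {j k : ℤ} {x : ℝ} (h : ⌊x / 2 ^ j⌋ ≠ k) : haar j k x = 0 := by
  have := floor_succ (j - 1) x
  rw [sub_add_cancel] at this
  rw [haar_eq, ch_eq, ch_eq, if_neg (by omega), if_neg (by omega), sub_self, mul_zero]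

theorem haar_mul_self (j k : ℤ) (x : ℝ) : haar j k x * haar j k x = (2 ^ j)⁻¹ * ch j k x := by
  have h := ch_split (j - 1) k x
  rw [sub_add_cancel] at h
  have h2 : (√(2 ^ j))⁻¹ * (√(2 ^ j))⁻¹ = ((2 : ℝ) ^ j)⁻¹ := by
    rw [← mul_inv, Real.mul_self_sqrt (by positivity)]
  rw [haar_eq, h, mul_mul_mul_comm, h2]
  congr 1
  simp only [ch_eq]
  split_ifs <;> first | omega | simp

theorem integral_haar_mul_of_lt {j j' : ℤ} (h : j < j') (k k' : ℤ) :
    ∫ x, haar j k x * haar j' k' x = 0 := by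
  have : ∀ x, haar j k x * haar j' k' x = haar j k x * haar j' k' (k * 2 ^ j) := by
    intro x
    by_cases hx : ⌊x / 2 ^ j⌋ = k
    · have h1 : ⌊x / 2 ^ j⌋ = ⌊(k * 2 ^ j : ℝ) / 2 ^ j⌋ := by
        rw [hx, mul_div_cancel_right₀ _ (by positivity), Int.floor_intCast]
      have h2 := floor_eq_of_le (show j ≤ j' - 1 by omega) h1
      simp only [haar_eq j', ch_eq, h2]
    · rw [haar_eq_zero hx, zero_mul, zero_mul]
  simp only [this]
  rw [integral_mul_const, integral_haar, zero_mul]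

theorem integral_haar_mul (j k j' k' : ℤ) :
    ∫ x, haar j k x * haar j' k' x = if j = j' ∧ k = k' then 1 else 0 := by
  rcases lt_trichotomy j j' with h | rfl | h
  · rw [integral_haar_mul_of_lt h, if_neg (by omega)]
  · by_cases hk : k = k'
    · subst hk
      simp only [haar_mul_self, and_self, if_true]
      rw [integral_const_mul, integral_ch, inv_mul_cancel₀ (by positivity)]
    · have : ∀ x, haar j k x * haar j k' x = 0 := fun x => by
        by_cases hx : ⌊x / 2 ^ j⌋ = k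
        · rw [haar_eq_zero (k := k') (by omega), mul_zero]
        · rw [haar_eq_zero hx, zero_mul]
      simp [this, hk]
  · simp only [mul_comm (haar j k _)]
    rw [integral_haar_mul_of_lt h, if_neg (by omega)]

/-- indicator function of a dyadic rectangle -/
noncomputable def rect (j k j' k' : ℤ) (p : ℝ × ℝ) : ℂ := ((ch j k p.1 * ch j' k' p.2 : ℝ) : ℂ)

theorem rect_eq (j k j' k' : ℤ) :
    rect j k j' k' = (dyadic j k ×ˢ dyadic j' k').indicator fun _ => (1 : ℂ) := by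
  funext p
  simp only [rect, ch, indicator, mem_prod]
  by_cases h1 : p.1 ∈ dyadic j k <;> by_cases h2 : p.2 ∈ dyadic j' k' <;> simp [h1, h2]

theorem volume_rect (j k j' k' : ℤ) :
    volume (dyadic j k ×ˢ dyadic j' k') = ENNReal.ofReal (2 ^ j * 2 ^ j') := by
  rw [Measure.volume_eq_prod, Measure.prod_prod, volume_dyadic, volume_dyadic,
    ENNReal.ofReal_mul (by positivity)]

theorem memLp_rect (j k j' k' : ℤ) : MemLp (rect j k j' k') 2 := by
  rw [rect_eq]
  exact memLp_indicator_const 2 ((measurableSet_dyadic _ _).prod (measurableSet_dyadic _ _)) _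
    (Or.inr (by rw [volume_rect]; exact ENNReal.ofReal_ne_top))

/-- product Haar function -/
noncomputable def hh (i : (ℤ × ℤ) × ℤ × ℤ) (p : ℝ × ℝ) : ℂ :=
  ((haar i.1.1 i.1.2 p.1 * haar i.2.1 i.2.2 p.2 : ℝ) : ℂ)

theorem memLp_hh (i : (ℤ × ℤ) × ℤ × ℤ) : MemLp (hh i) 2 := by
  obtain ⟨⟨j, k⟩, j', k'⟩ := i
  have : hh ((j, k), j', k') = (((√(2 ^ j))⁻¹ * (√(2 ^ j'))⁻¹ : ℝ) : ℂ) •
      (rect (j - 1) (2 * k + 1) (j' - 1) (2 * k' + 1) - rect (j - 1) (2 * k + 1) (j' - 1) (2 * k')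
        - rect (j - 1) (2 * k) (j' - 1) (2 * k' + 1) + rect (j - 1) (2 * k) (j' - 1) (2 * k')) := by
    funext p
    simp only [hh, haar_eq, rect, Pi.smul_apply, Pi.add_apply, Pi.sub_apply, smul_eq_mul]
    push_cast
    ring
  rw [this]
  exact ((((memLp_rect _ _ _ _).sub (memLp_rect _ _ _ _)).sub (memLp_rect _ _ _ _)).add
    (memLp_rect _ _ _ _)).const_smul _

/-- product Haar function as an element of `L²` -/
noncomputable def ee (i : (ℤ × ℤ) × ℤ × ℤ) : L2 := (memLp_hh i).toLp (hh i)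

theorem coe_ee (i : (ℤ × ℤ) × ℤ × ℤ) : ee i =ᵐ[volume] hh i := (memLp_hh i).coeFn_toLp

theorem orthonormal_ee : Orthonormal ℂ ee := by
  classical
  rw [orthonormal_iff_ite]
  rintro ⟨⟨j₁, k₁⟩, j₂, k₂⟩ ⟨⟨j₃, k₃⟩, j₄, k₄⟩
  rw [L2.inner_def]
  have h1 : (fun p => inner ℂ (ee ((j₁, k₁), j₂, k₂) p) (ee ((j₃, k₃), j₄, k₄) p)) =ᵐ[volume]
      fun p : ℝ × ℝ => (((haar j₁ k₁ p.1 * haar j₃ k₃ p.1)
        * (haar j₂ k₂ p.2 * haar j₄ k₄ p.2) : ℝ) : ℂ) := by
    filter_upwards [coe_ee ((j₁, k₁), j₂, k₂), coe_ee ((j₃, k₃), j₄, k₄)] with p h1 h2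
    rw [h1, h2]
    simp only [hh, RCLike.inner_apply, Complex.conj_ofReal]
    push_cast
    ring
  rw [integral_congr_ae h1, integral_complex_ofReal, Measure.volume_eq_prod,
    integral_prod_mul (fun x => haar j₁ k₁ x * haar j₃ k₃ x) fun x => haar j₂ k₂ x * haar j₄ k₄ x,
    integral_haar_mul, integral_haar_mul]
  simp only [Prod.mk.injEq]
  by_cases h1 : j₁ = j₃ ∧ k₁ = k₃ <;> by_cases h2 : j₂ = j₄ ∧ k₂ = k₄ <;> simp [h1, h2]

/-- the sibling index -/
def sib (k : ℤ) : ℤ := if Odd k then k - 1 else k + 1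

theorem sib_injective : Function.Injective sib := by
  intro a b h
  simp only [sib, Int.odd_iff] at h
  split_ifs at h <;> omega

theorem shiftHaar_eq (j k : ℤ) :
    (∀ x, shiftHaar j k x = haar j (sib k) x) ∨ ∀ x, shiftHaar j k x = -haar j (sib k) x := by
  by_cases h : Odd k
  · left; intro x; simp [shiftHaar, sib, h]
  · right; intro x; simp [shiftHaar, sib, h]

theorem exists_target (i : (ℤ × ℤ) × ℤ × ℤ) : ∃ w : L2,
    (w = ee ((i.1.1, sib i.1.2), i.2.1, sib i.2.2) ∨ w = -ee ((i.1.1, sib i.1.2), i.2.1, sib i.2.2))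
      ∧ w =ᵐ[volume] fun p => ((shiftHaar i.1.1 i.1.2 p.1 * shiftHaar i.2.1 i.2.2 p.2 : ℝ) : ℂ) := by
  obtain ⟨⟨j, k⟩, j', k'⟩ := i
  have hpos := coe_ee ((j, sib k), j', sib k')
  have hneg : (-ee ((j, sib k), j', sib k') : L2) =ᵐ[volume] -hh ((j, sib k), j', sib k') :=
    (Lp.coeFn_neg _).trans hpos.neg
  rcases shiftHaar_eq j k with h1 | h1 <;> rcases shiftHaar_eq j' k' with h2 | h2
  · exact ⟨_, Or.inl rfl, hpos.trans (.of_forall fun p => by simp [hh, h1, h2])⟩
  · exact ⟨_, Or.inr rfl, hneg.trans (.of_forall fun p => by simp [hh, h1, h2])⟩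
  · exact ⟨_, Or.inr rfl, hneg.trans (.of_forall fun p => by simp [hh, h1, h2])⟩
  · exact ⟨_, Or.inl rfl, hpos.trans (.of_forall fun p => by simp [hh, h1, h2])⟩

theorem exists_map {ι H : Type*} [NormedAddCommGroup H] [InnerProductSpace ℂ H] [CompleteSpace H]
    {v w : ι → H} (hv : Orthonormal ℂ v) (hw : Orthonormal ℂ w) :
    ∃ S : H →L[ℂ] H, ∀ i, S (v i) = w i := by
  classical
  let V := hv.orthogonalFamily.linearIsometry
  let W := hw.orthogonalFamily.linearIsometry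
  refine ⟨W.toContinuousLinearMap.comp (ContinuousLinearMap.adjoint V.toContinuousLinearMap),
    fun i => ?_⟩
  have h1 : v i = V (lp.single 2 i (1 : ℂ)) := by
    simp [V, OrthogonalFamily.linearIsometry_apply_single]
  have h2 : ContinuousLinearMap.adjoint V.toContinuousLinearMap (v i) = lp.single 2 i (1 : ℂ) := by
    refine ext_inner_left ℂ fun f => ?_
    rw [ContinuousLinearMap.adjoint_inner_right, h1]
    exact V.inner_map_map _ _
  rw [ContinuousLinearMap.comp_apply, h2]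
  simp [W, OrthogonalFamily.linearIsometry_apply_single]

theorem exists_tensorShift : ∃ S, IsTensorShift S := by
  choose w hw hw' using exists_target
  have hinj : Function.Injective fun i : (ℤ × ℤ) × ℤ × ℤ =>
      ((i.1.1, sib i.1.2), i.2.1, sib i.2.2) := by
    rintro ⟨⟨a, b⟩, c, d⟩ ⟨⟨a', b'⟩, c', d'⟩ h
    simp only [Prod.mk.injEq, sib_injective.eq_iff] at h
    simp [h]
  have hwo : Orthonormal ℂ w :=
    (orthonormal_ee.comp _ hinj).orthonormal_of_forall_eq_or_eq_neg hw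
  obtain ⟨S, hS⟩ := exists_map orthonormal_ee hwo
  refine ⟨S, S.isBoundedLinearMap, fun j₁ k₁ j₂ k₂ f hf => ?_⟩
  have : f = ee ((j₁, k₁), j₂, k₂) := Lp.ext (hf.trans (coe_ee ((j₁, k₁), j₂, k₂)).symm)
  rw [this, hS]
  exact hw' _

end Pool.Agent.Work.MP_8c5903_an
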