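import Pool.Agent.Work.MP_8c5903_an.Haar
import Mathlib.MeasureTheory.Function.Floor

/-!
The union of the diagonal unit squares is almost fixed by the tensor shift.
-/

namespace Pool.Agent.Work.MP_8c5903_an

open MeasureTheory Set

/-- union of the diagonal unit squares inside `I × I` -/
def diagSet (j k : ℤ) : Set (ℝ × ℝ) := {p | p.1 ∈ dyadic j k ∧ ⌊p.1⌋ = ⌊p.2⌋}

theorem measurableSet_diagSet (j k : ℤ) : MeasurableSet (diagSet j k) :=
  (measurable_fst (measurableSet_dyadic j k)).inter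
    (measurableSet_eq_fun (Int.measurable_floor.comp measurable_fst)
      (Int.measurable_floor.comp measurable_snd))

theorem volume_diagSet (n : ℕ) : ∀ k, volume (diagSet n k) = ENNReal.ofReal (2 ^ n) := by
  induction n with
  | zero =>
    intro k
    have : diagSet (0 : ℕ) k = dyadic 0 k ×ˢ dyadic 0 k := by
      ext p
      simp only [diagSet, mem_ofPred_eq, mem_prod, mem_dyadic]
      simp only [Nat.cast_zero, zpow_zero, div_one]
      omega
    rw [this, volume_rect]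
    simp
  | succ n ih =>
    intro k
    have : diagSet (n + 1 : ℕ) k = diagSet n (2 * k) ∪ diagSet n (2 * k + 1) := by
      ext p
      simp only [diagSet, mem_ofPred_eq, mem_union, mem_dyadic, Nat.cast_succ, floor_succ]
      omega
    rw [this, measure_union _ (measurableSet_diagSet _ _), ih, ih,
      ← ENNReal.ofReal_add (by positivity) (by positivity)]
    · congr 1
      ring
    · rw [disjoint_left]
      intro p h1 h2
      simp only [diagSet, mem_ofPred_eq, mem_dyadic] at h1 h2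
      omega

/-- indicator function of the diagonal set -/
noncomputable def KK (j k : ℤ) (p : ℝ × ℝ) : ℂ :=
  ((ch j k p.1 * if ⌊p.1⌋ = ⌊p.2⌋ then 1 else 0 : ℝ) : ℂ)

theorem KK_eq (j k : ℤ) : KK j k = (diagSet j k).indicator fun _ => (1 : ℂ) := by
  funext p
  simp only [KK, ch, indicator, diagSet, mem_ofPred_eq]
  by_cases h1 : p.1 ∈ dyadic j k <;> by_cases h2 : ⌊p.1⌋ = ⌊p.2⌋ <;> simp [h1, h2]

/-- kernel of the averaging operator -/
noncomputable def AA (j k : ℤ) (p : ℝ × ℝ) : ℂ := (((2 ^ j)⁻¹ : ℝ) : ℂ) * rect j k j k p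

/-- the invariant part -/
noncomputable def GG (j k : ℤ) (p : ℝ × ℝ) : ℂ :=
  KK (j + 1) k p - AA j (2 * k) p - AA j (2 * k + 1) p

theorem GG_zero (k : ℤ) : GG 0 k = 0 := by
  funext p
  simp only [GG, KK, AA, rect, ch_split]
  simp only [ch_eq, zpow_zero, div_one, inv_one]
  split_ifs <;> first | omega | simp

theorem AA_succ (j k : ℤ) (p : ℝ × ℝ) :
    AA (j + 1) k p = AA j (2 * k) p + AA j (2 * k + 1) p - hh ((j + 1, k), j + 1, k) p := by
  have h2 : (√(2 ^ (j + 1)))⁻¹ * (√(2 ^ (j + 1)))⁻¹ = ((2 : ℝ) ^ (j + 1))⁻¹ := by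
    rw [← mul_inv, Real.mul_self_sqrt (by positivity)]
  have h3 : ((2 : ℝ) ^ j)⁻¹ = 2 * ((2 : ℝ) ^ (j + 1))⁻¹ := by
    rw [zpow_add_one₀ two_ne_zero]
    field_simp
  simp only [AA, rect, hh, haar_eq, ch_split, add_sub_cancel_right]
  rw [mul_mul_mul_comm, h2, h3]
  push_cast
  ring

theorem GG_succ (j k : ℤ) : GG (j + 1) k = GG j (2 * k) + GG j (2 * k + 1)
    + (hh ((j + 1, 2 * k), j + 1, 2 * k) + hh ((j + 1, 2 * k + 1), j + 1, 2 * k + 1)) := by
  funext p
  simp only [GG, AA_succ, Pi.add_apply, KK, ch_split (j + 1)]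
  push_cast
  ring

variable {S : L2 → L2}

/-- the function represents a fixed vector of `S` -/
def Fixed (S : L2 → L2) (F : ℝ × ℝ → ℂ) : Prop := ∃ f : L2, f =ᵐ[volume] F ∧ S f = f

theorem Fixed.add (hS : IsTensorShift S) {F G : ℝ × ℝ → ℂ} (hF : Fixed S F) (hG : Fixed S G) :
    Fixed S (F + G) := by
  obtain ⟨f, hf, hf'⟩ := hF
  obtain ⟨g, hg, hg'⟩ := hG
  exact ⟨f + g, (Lp.coeFn_add f g).trans (hf.add hg), by rw [hS.1.map_add, hf', hg']⟩

theorem fixed_pair (hS : IsTensorShift S) (j k : ℤ) :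
    Fixed S (hh ((j, 2 * k), j, 2 * k) + hh ((j, 2 * k + 1), j, 2 * k + 1)) := by
  have h1 : S (ee ((j, 2 * k), j, 2 * k)) = ee ((j, 2 * k + 1), j, 2 * k + 1) := by
    refine Lp.ext ((hS.2 j (2 * k) j (2 * k) _ (coe_ee _)).trans
      (Filter.EventuallyEq.trans (.of_forall fun p => ?_) (coe_ee _).symm))
    have : ¬ Odd (2 * k) := by simp
    simp [hh, shiftHaar, this]
  have h2 : S (ee ((j, 2 * k + 1), j, 2 * k + 1)) = ee ((j, 2 * k), j, 2 * k) := by
    refine Lp.ext ((hS.2 j (2 * k + 1) j (2 * k + 1) _ (coe_ee _)).trans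
      (Filter.EventuallyEq.trans (.of_forall fun p => ?_) (coe_ee _).symm))
    have : Odd (2 * k + 1) := by simp
    simp [hh, shiftHaar, this]
  exact ⟨_ + _, (Lp.coeFn_add _ _).trans ((coe_ee _).add (coe_ee _)), by
    rw [hS.1.map_add, h1, h2, add_comm]⟩

theorem fixed_GG (hS : IsTensorShift S) (n : ℕ) : ∀ k, Fixed S (GG n k) := by
  induction n with
  | zero =>
    intro k
    rw [Nat.cast_zero, GG_zero]
    exact ⟨0, Lp.coeFn_zero _ _ _, hS.1.toIsLinearMap.map_zero⟩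
  | succ n ih =>
    intro k
    rw [Nat.cast_succ, GG_succ]
    exact ((ih _).add hS (ih _)).add hS (fixed_pair hS _ _)

theorem exists_AA (j k : ℤ) : ∃ a : L2, a =ᵐ[volume] AA j k ∧ ‖a‖ = 1 := by
  have hm := (measurableSet_dyadic j k).prod (measurableSet_dyadic j k)
  have hf : volume (dyadic j k ×ˢ dyadic j k) ≠ ⊤ := by
    rw [volume_rect]; exact ENNReal.ofReal_ne_top
  refine ⟨indicatorConstLp 2 hm hf (((2 ^ j)⁻¹ : ℝ) : ℂ), indicatorConstLp_coeFn.trans
    (.of_forall fun p => ?_), ?_⟩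
  · simp only [AA, rect_eq, indicator]
    split_ifs <;> simp
  · rw [norm_indicatorConstLp (by simp) (by simp), Measure.real, volume_rect,
      ENNReal.toReal_ofReal (by positivity), Complex.norm_real, Real.norm_of_nonneg (by positivity),
      ENNReal.toReal_ofNat, ← Real.sqrt_eq_rpow, Real.sqrt_mul_self (by positivity),
      inv_mul_cancel₀ (by positivity)]

theorem integral_norm_sq (w : L2) : ∫ x, ‖w x‖ ^ 2 = ‖w‖ ^ 2 := by
  have h := L2.inner_def (𝕜 := ℂ) w w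
  simp only [inner_self_eq_norm_sq_to_K] at h
  have h2 : (∫ x, ((‖w x‖ : ℂ)) ^ 2) = ((∫ x, ‖w x‖ ^ 2 : ℝ) : ℂ) := by
    rw [← integral_complex_ofReal]
    simp
  have h3 : ((‖w‖ : ℂ)) ^ 2 = ((∫ x, ‖w x‖ ^ 2 : ℝ) : ℂ) := h.trans h2
  exact_mod_cast h3.symm

theorem no_gap (hS : IsTensorShift S) {η : ℝ} (hη : η < 1) :
    ∃ (U : Set (ℝ × ℝ)) (hU : MeasurableSet U) (hfin : volume U ≠ ⊤), 0 < volume U ∧
      η * volume.real U < ∫ x in U, ‖S (indicatorConstLp 2 hU hfin (1 : ℂ)) x‖ ^ 2 := by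
  obtain ⟨M, hM0, hM⟩ := hS.1.bound
  set δ := (1 - η) / 2 with hδ
  have hδ0 : 0 < δ := by rw [hδ]; linarith
  set C := (2 * M + 2) ^ 2 / δ with hC
  obtain ⟨n, hn⟩ := pow_unbounded_of_one_lt (C / δ) (one_lt_two (α := ℝ))
  have hvol := volume_diagSet (n + 1) 0
  have hU := measurableSet_diagSet (n + 1 : ℕ) 0
  have hfin : volume (diagSet (n + 1 : ℕ) 0) ≠ ⊤ := by rw [hvol]; exact ENNReal.ofReal_ne_top
  have hreal : volume.real (diagSet (n + 1 : ℕ) 0) = 2 ^ (n + 1) := by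
    rw [Measure.real, hvol, ENNReal.toReal_ofReal (by positivity)]
  refine ⟨_, hU, hfin, by rw [hvol]; exact ENNReal.ofReal_pos.2 (by positivity), ?_⟩
  set U := diagSet (n + 1 : ℕ) 0 with hUdef
  set u : L2 := indicatorConstLp 2 hU hfin (1 : ℂ) with hu
  obtain ⟨g, hg, hg'⟩ := fixed_GG hS n 0
  obtain ⟨a, ha, ha'⟩ := exists_AA n (2 * 0)
  obtain ⟨b, hb, hb'⟩ := exists_AA n (2 * 0 + 1)
  have hucoe : u =ᵐ[volume] U.indicator fun _ => (1 : ℂ) := indicatorConstLp_coeFn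
  have hdec : u = g + (a + b) := by
    refine Lp.ext (hucoe.trans ?_)
    filter_upwards [Lp.coeFn_add g (a + b), Lp.coeFn_add a b, hg, ha, hb] with p h1 h2 h3 h4 h5
    rw [h1, Pi.add_apply, h2, Pi.add_apply, h3, h4, h5, hUdef, ← KK_eq, GG, Nat.cast_succ]
    ring
  set w : L2 := S (a + b) - (a + b) with hw
  have hSu : S u = u + w := by
    rw [hdec, hS.1.map_add, hg', hw]
    abel
  have hab : ‖a + b‖ ≤ 2 := (norm_add_le _ _).trans (by rw [ha', hb']; norm_num)
  have hwn : ‖w‖ ≤ 2 * M + 2 :=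
    (norm_sub_le _ _).trans (add_le_add ((hM _).trans (by nlinarith)) hab)
  have hint : ∀ f : L2, Integrable (fun x => ‖f x‖ ^ 2) := fun f =>
    (memLp_two_iff_integrable_sq_norm (Lp.aestronglyMeasurable f)).1 (Lp.memLp f)
  have hlow : ∫ x in U, ((1 - δ) - ‖w x‖ ^ 2 / δ) ≤ ∫ x in U, ‖S u x‖ ^ 2 := by
    refine setIntegral_mono_on_ae ((integrableOn_const hfin).sub
      ((hint w).div_const δ).integrableOn) (hint _).integrableOn hU ?_
    filter_upwards [Lp.coeFn_add u w, hucoe] with p h1 h2 hp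
    rw [hSu, h1, Pi.add_apply, h2, indicator_of_mem hp]
    have h3 : 1 - ‖w p‖ ≤ ‖1 + w p‖ := by
      have := norm_sub_le (1 + w p) (w p)
      rw [add_sub_cancel_right, norm_one] at this
      linarith
    have h4 : 2 * ‖w p‖ ≤ δ + ‖w p‖ ^ 2 / δ := by
      rw [add_div' _ _ _ hδ0.ne', le_div_iff₀ hδ0]
      nlinarith [sq_nonneg (δ - ‖w p‖)]
    nlinarith [norm_nonneg (w p), norm_nonneg (1 + w p), sq_nonneg (‖1 + w p‖ - 1)]
  have i1 : Integrable (fun _ : ℝ × ℝ => 1 - δ) (volume.restrict U) := integrableOn_const hfin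
  have i2 : Integrable (fun x : ℝ × ℝ => ‖w x‖ ^ 2 / δ) (volume.restrict U) :=
    ((hint w).div_const δ).integrableOn
  rw [integral_sub i1 i2, setIntegral_const, hreal, smul_eq_mul, integral_div] at hlow
  have h5 : ∫ x in U, ‖w x‖ ^ 2 ≤ (2 * M + 2) ^ 2 := by
    refine (setIntegral_le_integral (hint w) (.of_forall fun _ => by positivity)).trans ?_
    rw [integral_norm_sq]
    exact pow_le_pow_left₀ (norm_nonneg _) hwn 2
  have h6 : (∫ x in U, ‖w x‖ ^ 2) / δ ≤ C := div_le_div_of_nonneg_right h5 hδ0.le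
  rw [div_lt_iff₀ hδ0] at hn
  have h7 : η = 1 - 2 * δ := by rw [hδ]; ring
  change η * volume.real U < ∫ x in U, ‖S u x‖ ^ 2
  rw [pow_succ (2 : ℝ) n] at hlow hreal
  rw [hreal, h7]
  nlinarith [pow_pos (two_pos (α := ℝ)) n]

end Pool.Agent.Work.MP_8c5903_an
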